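import Mathlib
import Pool.Agent.H2.EvenRankDefs
import Pool.Agent.H2.EvenRankProof

namespace Pool.Agent.Results.MP_9cb2a9_co.EvenRank

open Pool.Agent.H2.EvenRank

/-- The arrays `a` and `b` satisfy every clause of the problem, and `b_i(n) ≤ a_i(2n)` always. -/
theorem result : IsSimsunArray a ∧ IsHomologyArray b ∧
    ∀ n : ℕ, 2 ≤ n → ∀ i : ℕ, 2 ≤ i → i ≤ n → b n i ≤ a (2 * n) i :=
  ⟨a_isSimsun, b_isHomology, fun n _ i _ _ => (le_abs_self _).trans (abs_b_le n i)⟩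

end Pool.Agent.Results.MP_9cb2a9_co.EvenRank
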